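import Pool.Agent.H44.EHN.Stmts

/-! Row `CL2` of the board `ehn` of helper44 (MP_48f148_nt). -/

set_option autoImplicit false

open Classical

namespace EHN

theorem cl2_fac (a b : ℕ) (h : a ≤ b) :
    (∏ k ∈ Finset.Ioc a b, k) * a.factorial = b.factorial := by
  induction b, h using Nat.le_induction with
  | base => simp
  | succ b hb ih =>
    rw [Finset.prod_Ioc_succ_top hb, Nat.factorial_succ, ← ih]
    ring

theorem cl2_thm : CL2Stmt := by
  intro L x0 a b s s' hs hs' hab
  have e1 : ∀ t : Finset ℕ, t ⊆ Finset.range L →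
      (∏ i ∈ t, ∏ k ∈ Finset.Ioc (a i) (b i), k) =
        ∏ i ∈ Finset.range L, (if i ∈ t then ∏ k ∈ Finset.Ioc (a i) (b i), k else 1) := by
    intro t ht
    rw [← Finset.prod_filter]
    congr 1
    ext i
    rw [Finset.mem_filter]
    exact ⟨fun h => ⟨ht h, h⟩, fun h => h.2⟩
  have e2 : ∀ c : ℕ, c ^ L = ∏ _i ∈ Finset.range L, c := by
    intro c
    rw [Finset.prod_const, Finset.card_range]
  rw [e1 _ (Finset.sdiff_subset.trans hs), e1 _ (Finset.sdiff_subset.trans hs'), e2, e2,
    ← Finset.prod_mul_distrib, ← Finset.prod_mul_distrib, ← Finset.prod_mul_distrib,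
    ← Finset.prod_mul_distrib]
  apply Finset.prod_le_prod'
  intro i hi
  have hi' := Finset.mem_range.1 hi
  obtain ⟨h1, h2⟩ := hab i hi'
  have hf := cl2_fac (a i) (b i) h2.le
  set R := ∏ k ∈ Finset.Ioc (a i) (b i), k with hR
  have hF : x0.factorial ≤ (a i).factorial := Nat.factorial_le h1
  have hR1 : 1 ≤ R := by
    rw [hR]
    apply Nat.one_le_iff_ne_zero.2
    rw [Finset.prod_ne_zero_iff]
    intro k hk
    rw [Finset.mem_Ioc] at hk
    omega
  by_cases hs1 : i ∈ s <;> by_cases hs2 : i ∈ s'
  · simp only [Finset.mem_sdiff, hs1, hs2, not_true, and_false, if_true, if_false, mul_one]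
    exact Nat.mul_le_mul_left _ (Nat.le_succ _)
  · simp only [Finset.mem_sdiff, hs1, hs2, not_true, not_false_iff, and_true, and_false, if_true,
      if_false, mul_one]
    rw [← hf]
    nlinarith [Nat.mul_le_mul_left R hF]
  · simp only [Finset.mem_sdiff, hs1, hs2, not_true, not_false_iff, and_true, and_false, if_true,
      if_false, mul_one]
    rw [← hf]
    nlinarith [Nat.mul_le_mul_right x0.factorial hR1, Nat.zero_le (R * (a i).factorial)]
  · simp only [Finset.mem_sdiff, hs1, hs2, not_false_iff, and_true, if_false,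
      mul_one]
    exact Nat.mul_le_mul_left _ (Nat.le_succ _)

end EHN
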